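import Mathlib
import Pool.Agent.H341Q.CCDefs
import Pool.Agent.H341Q.CCMain

/-!
# Choose does not win the weak cut and choose game `U(κ, ≤γ)` if `κ ≤ 2 ^ γ`

Let `γ` be an infinite regular cardinal.  If `κ < 2 ^ γ`, or `κ = γ⁺`, or `κ ≤ 2 ^ γ` and
`2 ^ (2 ^ (<γ)) ≤ 2 ^ γ`, then Choose has no winning strategy in `U(κ, ≤γ)`.

Together with the known fact that after the Levy collapse `Coll(ℵ_{n-1}, <κ)` of a measurable
cardinal `κ = ℵ_n` is generically measurable as witnessed by a `<ℵ_{n-1}`-closed forcing notion
(take `γ = ℵ_{n-1}`, `κ = γ⁺`), this shows that generic measurability as witnessed by a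
`<γ`-closed forcing notion does not imply that Choose wins `U(κ, ≤γ)`.

Proof.  Identify `κ` with a set of sequences in `2 ^ γ`.  If Choose plays by a winning strategy then
every position has two extensions whose current sets differ in a digit: if Cut asks for all digits,
the answers determine a point `x₀`; if Cut first cuts off `x₀` and then asks for all digits, the
answers determine another point.  So there is a tree of `2 ^ γ` runs with different results, and
`κ = 2 ^ γ`.  If Cut starts with a set that splits all possible sets of results of such trees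
(a Bernstein set), some of these results are outside of the current set.
-/

namespace Pool.Agent.Results.MP_446da5_lc.ChooseDoesNotWin

open Cardinal Order Pool.Agent.H341Q.CC

universe u

theorem result (κ γ : Cardinal.{u}) (hγ : γ.IsRegular) (hκ : κ ≤ 2 ^ γ)
    (h : κ < 2 ^ γ ∨ κ = succ γ ∨ (2 : Cardinal.{u}) ^ (2 ^< γ) ≤ 2 ^ γ) :
    ¬ ChooseWins κ.ord.ToType γ :=
  main hγ (by rwa [mk_ord_toType]) (by rwa [mk_ord_toType])

end Pool.Agent.Results.MP_446da5_lc.ChooseDoesNotWin
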